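import Mathlib
import Pool.Agent.Work.MP_ce2d68_st.Interface

set_option autoImplicit false

open Polynomial Filter Topology
open scoped ComplexConjugate

/-!
# MP_ce2d68_nt, block `ADSC` (helper56): analytic discs through `a` and `1`
-/

namespace Pool.Agent.Work.MP_ce2d68_st.helper56

open Pool.Agent.Work.MP_ce2d68_st

/-- the affine function -/
noncomputable def qq (μ η : ℝ) (w : ℂ) : ℂ := 1 + μ * (1 - (1 + η) * w)

/-- the exponent -/
noncomputable def psi (μ η l : ℝ) (a w : ℂ) : ℂ := l * Complex.log a * Complex.log (qq μ η w)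

/-- the disc -/
noncomputable def phi (μ η l : ℝ) (a w : ℂ) : ℂ := Complex.exp (psi μ η l a w)

section Main

variable {μ η l : ℝ}

theorem qq_re (hμ : 0 < μ) (hη : 0 < η) (hμη : μ * η = 1 / 2) {w : ℂ} (hw : ‖w‖ ≤ 1) :
    1 / 2 ≤ (qq μ η w).re := by
  have h1 : w.re ≤ 1 := (Complex.re_le_norm w).trans hw
  have e : (qq μ η w).re = 1 + μ * (1 - (1 + η) * w.re) := by
    unfold qq
    simp
  rw [e]
  have h2 : (1 + η) * w.re ≤ 1 + η := by nlinarith
  nlinarith

theorem qq_norm (hμ : 0 < μ) (hη : 0 < η) (hμη : μ * η = 1 / 2) {w : ℂ} (hw : ‖w‖ ≤ 1) :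
    ‖qq μ η w‖ ≤ 2 * (1 + μ) := by
  unfold qq
  have h1 : ‖(1 + (η : ℂ)) * w‖ ≤ 1 + η := by
    rw [norm_mul]
    have h2 : ‖(1 + (η : ℂ))‖ = 1 + η := by
      have : (1 + (η : ℂ)) = ((1 + η : ℝ) : ℂ) := by push_cast; ring
      rw [this, Complex.norm_real, Real.norm_eq_abs, abs_of_pos (by linarith)]
    rw [h2]
    nlinarith [norm_nonneg w]
  have h2 : ‖(1 : ℂ) - (1 + (η : ℂ)) * w‖ ≤ 2 + η := by
    refine (norm_sub_le _ _).trans ?_
    rw [norm_one]
    linarith
  have h3 : ‖(μ : ℂ) * (1 - (1 + (η : ℂ)) * w)‖ ≤ μ * (2 + η) := by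
    rw [norm_mul, Complex.norm_real, Real.norm_eq_abs, abs_of_pos hμ]
    exact mul_le_mul_of_nonneg_left h2 hμ.le
  refine (norm_add_le _ _).trans ?_
  rw [norm_one]
  nlinarith

theorem qq_slit (hμ : 0 < μ) (hη : 0 < η) (hμη : μ * η = 1 / 2) {w : ℂ} (hw : ‖w‖ ≤ 1) :
    qq μ η w ∈ Complex.slitPlane :=
  Or.inl (by linarith [qq_re hμ hη hμη hw])

theorem qq_an (w : ℂ) : AnalyticAt ℂ (qq μ η) w := by
  unfold qq
  fun_prop

theorem psi_an (hμ : 0 < μ) (hη : 0 < η) (hμη : μ * η = 1 / 2) (a : ℂ) {w : ℂ}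
    (hw : ‖w‖ ≤ 1) : AnalyticAt ℂ (psi μ η l a) w := by
  unfold psi
  exact analyticAt_const.mul ((qq_an w).clog (qq_slit hμ hη hμη hw))

/-- bounds for the logarithm of `q` -/
theorem logq (hμ : 0 < μ) (hη : 0 < η) (hμη : μ * η = 1 / 2) {w : ℂ} (hw : ‖w‖ ≤ 1) :
    -Real.log 2 ≤ Real.log ‖qq μ η w‖ ∧
      Real.log ‖qq μ η w‖ ≤ Real.log 2 + Real.log (1 + μ) ∧ |(qq μ η w).arg| ≤ Real.pi / 2 := by
  have h1 := qq_re hμ hη hμη hw
  have h2 : 1 / 2 ≤ ‖qq μ η w‖ := h1.trans (Complex.re_le_norm _)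
  refine ⟨?_, ?_, ?_⟩
  · have : -Real.log 2 = Real.log (1 / 2) := by
      rw [one_div, Real.log_inv]
    rw [this]
    exact Real.log_le_log (by norm_num) h2
  · rw [← Real.log_mul (by norm_num) (by linarith)]
    exact Real.log_le_log (by linarith) (qq_norm hμ hη hμη hw)
  · exact Complex.abs_arg_le_pi_div_two_iff.2 (by linarith)

theorem psi_re (a w : ℂ) : (psi μ η l a w).re =
    l * (Real.log ‖a‖ * Real.log ‖qq μ η w‖ - a.arg * (qq μ η w).arg) := by
  unfold psi
  rw [mul_assoc, Complex.re_ofReal_mul, Complex.mul_re, Complex.log_re, Complex.log_re,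
    Complex.log_im, Complex.log_im]

theorem psi_im (a w : ℂ) : (psi μ η l a w).im =
    l * (Real.log ‖a‖ * (qq μ η w).arg + a.arg * Real.log ‖qq μ η w‖) := by
  unfold psi
  rw [mul_assoc, Complex.im_ofReal_mul, Complex.mul_im, Complex.log_re, Complex.log_re,
    Complex.log_im, Complex.log_im]

end Main

theorem stmt_ADSC : Stmt_ADSC := by
  intro θ θ₁ c c' κ₂ hθ hθ₁ hπ hc hcc' hκ
  have hπ0 := Real.pi_pos
  have hlog2 : 0 < Real.log 2 := Real.log_pos (by norm_num)
  have hc' : 0 < c' := hc.trans_le hcc'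
  set C2 : ℝ := c' * Real.log 2 + θ * (Real.pi / 2) with hC2
  have hC20 : 0 < C2 := by positivity
  set Q0 : ℝ := Real.exp (θ * (Real.pi / 2) / c) with hQ0
  have hQ00 : 0 < Q0 := Real.exp_pos _
  set A1 : ℝ := c' * (Real.pi / 2) + θ * Real.log 2 with hA1
  have hA10 : 0 < A1 := by positivity
  set l : ℝ := min (min 1 ((θ₁ - θ) / A1)) (min (Real.log 2 / C2) (κ₂ / (4 * C2 * Q0 ^ 2))) with hl
  have hl0 : 0 < l := by
    rw [hl]
    have : 0 < θ₁ - θ := by linarith
    positivity
  have hl1 : l ≤ 1 := (min_le_left _ _).trans (min_le_left _ _)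
  have hl2 : l * A1 ≤ θ₁ - θ := by
    rw [← le_div_iff₀ hA10]
    exact (min_le_left _ _).trans (min_le_right _ _)
  have hl3 : l * C2 ≤ Real.log 2 := by
    rw [← le_div_iff₀ hC20]
    exact (min_le_right _ _).trans (min_le_left _ _)
  have hl4 : l * (4 * C2 * Q0 ^ 2) ≤ κ₂ := by
    rw [← le_div_iff₀ (by positivity)]
    exact (min_le_right _ _).trans (min_le_right _ _)
  set μ : ℝ := Real.exp (1 / l) - 1 with hμdef
  have hμ1 : 1 < μ := by
    have h1 : (1 : ℝ) ≤ 1 / l := by
      rw [le_div_iff₀ hl0]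
      linarith
    have h2 : Real.exp 1 ≤ Real.exp (1 / l) := Real.exp_le_exp.2 h1
    have h3 := Real.exp_one_gt_d9
    rw [hμdef]
    linarith
  have hμ : 0 < μ := by linarith
  have hlogμ : Real.log (1 + μ) = 1 / l := by
    rw [hμdef, add_sub_cancel, Real.log_exp]
  set η : ℝ := 1 / (2 * μ) with hηdef
  have hη : 0 < η := by positivity
  have hμη : μ * η = 1 / 2 := by
    rw [hηdef]
    field_simp
  have hη1 : η < 1 := by
    rw [hηdef, div_lt_one (by positivity)]
    linarith
  refine ⟨η, hη, hη1, phi μ η l, ?_⟩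
  intro a ha hac hac'
  have ha0 : a ≠ 0 := by
    rintro rfl
    rw [norm_zero, Real.log_zero] at hac
    linarith
  have hargπ : a.arg ≠ Real.pi := by
    intro h
    rw [h, abs_of_pos hπ0] at ha
    linarith
  set ell := Real.log ‖a‖ with hell
  have hell0 : 0 < ell := hc.trans_le hac
  have habs := abs_le.1 ha
  -- the real part of the exponent
  have hre : ∀ w : ℂ, ‖w‖ ≤ 1 → -(l * C2) ≤ (psi μ η l a w).re ∧
      max 0 (psi μ η l a w).re ≤ (psi μ η l a w).re + 2 * l * C2 * Q0 ^ 2 * (1 / qq μ η w).re := by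
    intro w hw
    obtain ⟨g1, g2, g3⟩ := logq hμ hη hμη hw
    have g4 := qq_re hμ hη hμη hw
    have g3' := abs_le.1 g3
    have h1 : |a.arg * (qq μ η w).arg| ≤ θ * (Real.pi / 2) := by
      rw [abs_mul]
      exact mul_le_mul ha g3 (abs_nonneg _) hθ.le
    have h1' := abs_le.1 h1
    have h2 : -(ell * Real.log 2) ≤ ell * Real.log ‖qq μ η w‖ := by
      have := mul_le_mul_of_nonneg_left g1 hell0.le
      linarith
    have h3 : ell * Real.log 2 ≤ c' * Real.log 2 := mul_le_mul_of_nonneg_right hac' hlog2.le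
    have h4 : -(l * C2) ≤ (psi μ η l a w).re := by
      rw [psi_re, ← mul_neg]
      refine mul_le_mul_of_nonneg_left ?_ hl0.le
      rw [hC2]
      linarith
    refine ⟨h4, ?_⟩
    have hinv : (1 / qq μ η w).re = (qq μ η w).re / ‖qq μ η w‖ ^ 2 := by
      rw [one_div, Complex.inv_re, Complex.sq_norm]
    have hn : 0 < ‖qq μ η w‖ := lt_of_lt_of_le (by linarith) (Complex.re_le_norm _)
    have hinv0 : 0 < (1 / qq μ η w).re := by
      rw [hinv]
      exact div_pos (by linarith) (by positivity)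
    have hterm : 0 ≤ 2 * l * C2 * Q0 ^ 2 * (1 / qq μ η w).re := by positivity
    rcases le_or_gt 0 (psi μ η l a w).re with h5 | h5
    · rw [max_eq_right h5]
      linarith
    · rw [max_eq_left h5.le]
      have h6 : ell * Real.log ‖qq μ η w‖ < θ * (Real.pi / 2) := by
        rw [psi_re] at h5
        have h7 : ell * Real.log ‖qq μ η w‖ - a.arg * (qq μ η w).arg < 0 := by
          by_contra hh
          have := mul_nonneg hl0.le (not_lt.1 hh)
          linarith
        linarith
      have h7 : Real.log ‖qq μ η w‖ ≤ θ * (Real.pi / 2) / c := by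
        rcases le_or_gt (Real.log ‖qq μ η w‖) 0 with h8 | h8
        · exact h8.trans (by positivity)
        · rw [le_div_iff₀ hc]
          have := mul_le_mul_of_nonneg_right hac h8.le
          linarith
      have h8 : ‖qq μ η w‖ ≤ Q0 := by
        rw [hQ0, ← Real.exp_log hn]
        exact Real.exp_le_exp.2 h7
      have h9 : 1 / (2 * Q0 ^ 2) ≤ (1 / qq μ η w).re := by
        rw [hinv, div_le_div_iff₀ (by positivity) (by positivity)]
        have h10 : ‖qq μ η w‖ ^ 2 ≤ Q0 ^ 2 := by gcongr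
        nlinarith [sq_nonneg Q0]
      have h10 : l * C2 ≤ 2 * l * C2 * Q0 ^ 2 * (1 / qq μ η w).re := by
        calc l * C2 = 2 * l * C2 * Q0 ^ 2 * (1 / (2 * Q0 ^ 2)) := by field_simp
          _ ≤ _ := by gcongr
      linarith
  have him : ∀ w : ℂ, ‖w‖ ≤ 1 → |(psi μ η l a w).im| ≤ θ₁ := by
    intro w hw
    obtain ⟨g1, g2, g3⟩ := logq hμ hη hμη hw
    rw [hlogμ] at g2
    have h1 : |ell * (qq μ η w).arg| ≤ c' * (Real.pi / 2) := by
      rw [abs_mul, abs_of_pos hell0]
      exact mul_le_mul hac' g3 (abs_nonneg _) hc'.le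
    have h2 : |Real.log ‖qq μ η w‖| ≤ Real.log 2 + 1 / l := by
      rw [abs_le]
      have : 0 < 1 / l := by positivity
      constructor <;> linarith
    have h3 : |a.arg * Real.log ‖qq μ η w‖| ≤ θ * (Real.log 2 + 1 / l) := by
      rw [abs_mul]
      exact mul_le_mul ha h2 (abs_nonneg _) hθ.le
    rw [psi_im, abs_mul, abs_of_pos hl0]
    have h4 : |ell * (qq μ η w).arg + a.arg * Real.log ‖qq μ η w‖| ≤ A1 + θ / l := by
      refine (abs_add_le _ _).trans ?_
      rw [hA1]
      have : θ * (Real.log 2 + 1 / l) = θ * Real.log 2 + θ / l := by ring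
      linarith
    calc l * |ell * (qq μ η w).arg + a.arg * Real.log ‖qq μ η w‖| ≤ l * (A1 + θ / l) := by gcongr
      _ = l * A1 + θ := by field_simp
      _ ≤ θ₁ := by linarith
  have hnorm : ∀ w : ℂ, ‖phi μ η l a w‖ = Real.exp (psi μ η l a w).re := by
    intro w
    unfold phi
    rw [Complex.norm_exp]
  have hqc : ∀ w : ℂ, qq μ η (conj w) = conj (qq μ η w) := by
    intro w
    unfold qq
    simp
  refine ⟨?_, ?_, ?_, ?_, ?_⟩
  · intro w hw
    have hw' : ‖w‖ ≤ 1 := by simpa using hw
    exact (psi_an hμ hη hμη a hw').cexp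
  · unfold phi psi
    have h1 : qq μ η 0 = ((1 + μ : ℝ) : ℂ) := by
      unfold qq
      push_cast
      ring
    rw [h1, ← Complex.ofReal_log (by linarith), hlogμ]
    have h2 : (l : ℂ) * Complex.log a * ((1 / l : ℝ) : ℂ) = Complex.log a := by
      push_cast
      have : (l : ℂ) ≠ 0 := by exact_mod_cast hl0.ne'
      field_simp
    rw [h2, Complex.exp_log ha0]
  · intro w hw
    have hw' : ‖w‖ ≤ 1 := by simpa using hw
    refine ⟨?_, ?_, ?_⟩
    · rw [hnorm]
      have h1 := (hre w hw').1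
      have h2 : (1 / 2 : ℝ) = Real.exp (-Real.log 2) := by
        rw [Real.exp_neg, Real.exp_log (by norm_num)]
        norm_num
      rw [h2]
      exact Real.exp_le_exp.2 (by linarith)
    · have h1 := him w hw'
      have h1' := abs_le.1 h1
      have h2 : (phi μ η l a w).arg = (psi μ η l a w).im := by
        unfold phi
        rw [← Complex.log_im, Complex.log_exp (by linarith) (by linarith)]
      rw [h2]
      exact h1
    · unfold phi psi
      have h1 : (qq μ η w).arg ≠ Real.pi := by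
        intro h
        have := (logq hμ hη hμη hw').2.2
        rw [h, abs_of_pos hπ0] at this
        linarith
      rw [hqc, Complex.log_conj _ hargπ, Complex.log_conj _ h1, ← Complex.exp_conj]
      congr 1
      simp
  · unfold phi psi
    have h1 : qq μ η ((1 / (1 + η) : ℝ) : ℂ) = 1 := by
      unfold qq
      have : (1 + (η : ℂ)) * ((1 / (1 + η) : ℝ) : ℂ) = 1 := by
        have h3 : (1 + (η : ℂ)) ≠ 0 := by
          have : (1 + (η : ℂ)) = ((1 + η : ℝ) : ℂ) := by push_cast; ring
          rw [this]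
          exact_mod_cast (by linarith : (1 + η) ≠ 0)
        push_cast
        field_simp
      rw [this]
      ring
    rw [h1, Complex.log_one, mul_zero, Complex.exp_zero]
  · -- the average
    set g : ℂ → ℂ := fun w => psi μ η l a w + (2 * l * C2 * Q0 ^ 2 : ℝ) * (1 / qq μ η w) with hg
    have hgan : ∀ w : ℂ, ‖w‖ ≤ 1 → AnalyticAt ℂ g w := by
      intro w hw
      have h0 : qq μ η w ≠ 0 := Complex.slitPlane_ne_zero (qq_slit hμ hη hμη hw)
      exact (psi_an hμ hη hμη a hw).add (analyticAt_const.mul (analyticAt_const.div (qq_an w) h0))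
    have hgc : ContinuousOn g (Metric.closedBall 0 1) := fun w hw =>
      (hgan w (by simpa using hw)).continuousAt.continuousWithinAt
    have hgd : DiffContOnCl ℂ g (Metric.ball 0 |1|) := by
      rw [abs_one]
      refine ⟨fun w hw => ((hgan w ?_).differentiableAt).differentiableWithinAt, ?_⟩
      · have : ‖w‖ < 1 := by simpa using hw
        exact this.le
      · rw [closure_ball (0 : ℂ) one_ne_zero]
        exact hgc
    have hav := hgd.circleAverage
    have hgi : CircleIntegrable g 0 1 := by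
      refine ContinuousOn.circleIntegrable zero_le_one (hgc.mono Metric.sphere_subset_closedBall)
    have hre2 : Real.circleAverage (fun w => (g w).re) 0 1 = (g 0).re := by
      have := Complex.reCLM.circleAverage_comp_comm hgi
      rw [hav] at this
      exact this
    have hg0 : (g 0).re = ell + 2 * l * C2 * Q0 ^ 2 / (1 + μ) := by
      have h1 : qq μ η 0 = ((1 + μ : ℝ) : ℂ) := by
        unfold qq
        push_cast
        ring
      have h2 : psi μ η l a 0 = Complex.log a := by
        unfold psi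
        rw [h1, ← Complex.ofReal_log (by linarith), hlogμ]
        push_cast
        have : (l : ℂ) ≠ 0 := by exact_mod_cast hl0.ne'
        field_simp
      rw [hg]
      simp only
      rw [h2, h1, Complex.add_re, Complex.log_re, Complex.re_ofReal_mul]
      have h3 : (1 / ((1 + μ : ℝ) : ℂ)) = ((1 / (1 + μ) : ℝ) : ℂ) := by push_cast; ring
      rw [h3, Complex.ofReal_re]
      ring
    have hpos : ∀ w : ℂ, ‖w‖ ≤ 1 → Real.posLog ‖phi μ η l a w‖ = max 0 (psi μ η l a w).re := by
      intro w _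
      rw [Real.posLog_apply, hnorm, Real.log_exp]
    have hphc : ContinuousOn (fun w => Real.posLog ‖phi μ η l a w‖) (Metric.sphere (0 : ℂ) 1) := by
      intro w hw
      have hw' : ‖w‖ ≤ 1 := by
        have : ‖w‖ = 1 := by simpa using hw
        rw [this]
      have h1 : ContinuousAt (phi μ η l a) w := (psi_an hμ hη hμη a hw').cexp.continuousAt
      exact (Real.continuous_posLog.continuousAt.comp h1.norm).continuousWithinAt
    have hphi : CircleIntegrable (fun w => Real.posLog ‖phi μ η l a w‖) 0 1 :=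
      ContinuousOn.circleIntegrable zero_le_one hphc
    have hgri : CircleIntegrable (fun w => (g w).re) 0 1 :=
      ContinuousOn.circleIntegrable zero_le_one
        (Complex.continuous_re.comp_continuousOn (hgc.mono Metric.sphere_subset_closedBall))
    have hmono : ca (fun w => Real.posLog ‖phi μ η l a w‖) ≤
        Real.circleAverage (fun w => (g w).re) 0 1 := by
      unfold ca
      refine Real.circleAverage_mono hphi hgri ?_
      intro w hw
      have hw' : ‖w‖ ≤ 1 := by
        have : ‖w‖ = 1 := by simpa using hw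
        rw [this]
      rw [hpos w hw', hg]
      simp only
      rw [Complex.add_re, Complex.re_ofReal_mul]
      exact (hre w hw').2
    refine hmono.trans ?_
    rw [hre2, hg0]
    have h5 : 2 * l * C2 * Q0 ^ 2 / (1 + μ) ≤ κ₂ * η := by
      rw [div_le_iff₀ (by linarith), hηdef]
      have h6 : κ₂ * (1 / (2 * μ)) * (1 + μ) = κ₂ / 2 * ((1 + μ) / μ) := by
        field_simp
      rw [h6]
      have h7 : 1 ≤ (1 + μ) / μ := by
        rw [le_div_iff₀ hμ]
        linarith
      have h8 : κ₂ / 2 * 1 ≤ κ₂ / 2 * ((1 + μ) / μ) := by gcongr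
      linarith
    linarith

end Pool.Agent.Work.MP_ce2d68_st.helper56
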