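import Mathlib
import Pool.Agent.Work.MP_ce2d68_st.Interface

set_option autoImplicit false

open Polynomial Filter Topology
open scoped ComplexConjugate

/-!
# MP_ce2d68_nt, block `ZER` (helper56): the first stair has positive length
-/

namespace Pool.Agent.Work.MP_ce2d68_st.helper56

open Pool.Agent.Work.MP_ce2d68_st

/-! ### The inequality on the positive real line -/

/-- the golden ratio -/
noncomputable def gr : ℝ := (1 + √5) / 2

/-- the exponent of `|z - 1|` -/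
noncomputable def ea : ℝ := 1 / √5

theorem s5 : √5 * √5 = 5 := Real.mul_self_sqrt (by norm_num)

theorem s5p : 0 < √5 := Real.sqrt_pos.2 (by norm_num)

theorem s5lo : 2.2 < √5 := by
  rw [show (2.2 : ℝ) = √(2.2 ^ 2) from (Real.sqrt_sq (by norm_num)).symm]
  exact Real.sqrt_lt_sqrt (by norm_num) (by norm_num)

theorem s5hi : √5 < 2.3 := by
  rw [show (2.3 : ℝ) = √(2.3 ^ 2) from (Real.sqrt_sq (by norm_num)).symm]
  exact Real.sqrt_lt_sqrt (by norm_num) (by norm_num)

theorem ea_pos : 0 < ea := by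
  unfold ea
  have := s5p
  positivity

theorem ea_eq : ea = √5 / 5 := by
  unfold ea
  rw [div_eq_div_iff s5p.ne' (by norm_num)]
  linarith [s5]

theorem ea_lt : ea < 1 / 2 := by
  rw [ea_eq]
  linarith [s5hi]

theorem gr_pos : 0 < gr := by
  unfold gr
  have := s5p
  positivity

theorem gr_sq : gr ^ 2 = gr + 1 := by
  unfold gr
  nlinarith [s5]

theorem gr_gt : 1 < gr := by
  unfold gr
  linarith [s5lo]

/-- concavity of the logarithm -/
theorem conc {x y : ℝ} (hx : 1 < x) (hy : 1 < y) (hxy : x ≠ y) :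
    Real.log y + ((y - 1) / y) * (Real.log (x - 1) - Real.log (y - 1)) < Real.log x := by
  have hy0 : 0 < y := by linarith
  have hx0 : 0 < x := by linarith
  have hy1 : 0 < y - 1 := by linarith
  have hx1 : 0 < x - 1 := by linarith
  have ht : (0 : ℝ) < (x - 1) / (y - 1) := div_pos hx1 hy1
  have hne : (1 : ℝ) ≠ (x - 1) / (y - 1) := by
    intro h
    rw [eq_div_iff hy1.ne'] at h
    exact hxy (by linarith)
  have h := strictConcaveOn_log_Ioi.2 (Set.mem_Ioi.2 one_pos) (Set.mem_Ioi.2 ht) hne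
    (show (0 : ℝ) < 1 / y by positivity) (show (0 : ℝ) < (y - 1) / y by positivity)
    (by field_simp; ring)
  simp only [smul_eq_mul, Real.log_one, mul_zero, zero_add] at h
  have e1 : 1 / y * 1 + (y - 1) / y * ((x - 1) / (y - 1)) = x / y := by
    field_simp
    ring
  rw [e1, Real.log_div hx1.ne' hy1.ne', Real.log_div hx0.ne' hy0.ne'] at h
  linarith

theorem conc' {x y : ℝ} (hx : 1 < x) (hy : 1 < y) :
    Real.log y + ((y - 1) / y) * (Real.log (x - 1) - Real.log (y - 1)) ≤ Real.log x := by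
  by_cases h : x = y
  · rw [h]
    linarith
  · exact (conc hx hy h).le

/-- `ff x = ((1 + a) log x) / 2 - a log (x - 1)` -/
noncomputable def ff (x : ℝ) : ℝ := (1 + ea) / 2 * Real.log x - ea * Real.log (x - 1)

theorem ff_gt {x : ℝ} (hx : 1 < x) (hxy : x ≠ gr ^ 2) : Real.log gr < ff x := by
  have hg2 : 1 < gr ^ 2 := by
    have := gr_gt
    nlinarith
  have h := conc hx hg2 hxy
  have e1 : gr ^ 2 - 1 = gr := by linarith [gr_sq]
  rw [e1, Real.log_pow] at h
  have e2 : (1 + ea) / 2 * (gr / gr ^ 2) = ea := by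
    rw [ea_eq]
    unfold gr
    have := s5p
    field_simp
    nlinarith [s5]
  have e3 : 0 < (1 + ea) / 2 := by linarith [ea_pos]
  have h1 := mul_lt_mul_of_pos_left h e3
  unfold ff
  push_cast at h1
  have e4 : (1 + ea) / 2 * (2 * Real.log gr + gr / gr ^ 2 * (Real.log (x - 1) - Real.log gr)) =
      (1 + ea) * Real.log gr + ((1 + ea) / 2 * (gr / gr ^ 2)) * (Real.log (x - 1) - Real.log gr) := by
    ring
  rw [e4, e2] at h1
  linarith

/-- the inequality for `x > 1` -/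
theorem real1 : ∃ b : ℝ, 0 < b ∧ b < 1 / 10 ∧ ∀ x : ℝ, 1 < x → x ^ 2 - 3 * x + 1 ≠ 0 →
    Real.log gr + b * (Real.log |x ^ 2 - 3 * x + 1| - Real.log x) < ff x := by
  have h72 : (7 / 2 : ℝ) ≠ gr ^ 2 := by
    rw [gr_sq]
    unfold gr
    intro h
    linarith [s5hi]
  have hd := ff_gt (x := 7 / 2) (by norm_num) h72
  set δ := ff (7 / 2) - Real.log gr with hδ
  have hd0 : 0 < δ := by
    rw [hδ]
    linarith
  set κ : ℝ := 5 / 14 - 9 / 14 * ea with hκ
  have hk0 : 0 < κ := by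
    rw [hκ]
    linarith [ea_lt]
  refine ⟨min (min κ (δ / 2)) (1 / 20), by positivity, ?_, ?_⟩
  · exact lt_of_le_of_lt (min_le_right _ _) (by norm_num)
  · intro x hx hq
    set b := min (min κ (δ / 2)) (1 / 20) with hb
    have hb0 : 0 < b := by
      rw [hb]
      positivity
    have hb1 : b ≤ κ := (min_le_left _ _).trans (min_le_left _ _)
    have hb2 : b ≤ δ / 2 := (min_le_left _ _).trans (min_le_right _ _)
    have hx0 : 0 < x := by linarith
    rcases le_or_gt x (7 / 2) with h | h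
    · have h1 : |x ^ 2 - 3 * x + 1| ≤ x := by
        rw [abs_le]
        constructor <;> nlinarith [sq_nonneg (x - 1)]
      have h2 : Real.log |x ^ 2 - 3 * x + 1| ≤ Real.log x :=
        Real.log_le_log (abs_pos.2 hq) h1
      have h3 : x ≠ gr ^ 2 := by
        intro h'
        apply hq
        rw [h', gr_sq]
        nlinarith [gr_sq]
      have h4 := ff_gt hx h3
      nlinarith
    · have h1 : 0 < x ^ 2 - 3 * x + 1 := by nlinarith
      have h2 : x ^ 2 - 3 * x + 1 ≤ x * (x - 1) := by nlinarith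
      have h3 : Real.log |x ^ 2 - 3 * x + 1| ≤ Real.log x + Real.log (x - 1) := by
        rw [abs_of_pos h1, ← Real.log_mul hx0.ne' (by linarith)]
        exact Real.log_le_log h1 h2
      have h4 := conc' hx (y := 7 / 2) (by norm_num)
      have e3 : 0 < (1 + ea) / 2 := by linarith [ea_pos]
      have h5 := mul_le_mul_of_nonneg_left h4 e3.le
      have e5 : ((7 : ℝ) / 2 - 1) / (7 / 2) = 5 / 7 := by norm_num
      have e6 : ((7 : ℝ) / 2 - 1) = 5 / 2 := by norm_num
      rw [e5, e6] at h5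
      have h6 : δ + κ * (Real.log (x - 1) - Real.log (5 / 2)) ≤ ff x - Real.log gr := by
        have e7 : δ = (1 + ea) / 2 * Real.log (7 / 2) - ea * Real.log (5 / 2) - Real.log gr := by
          rw [hδ]
          unfold ff
          rw [e6]
        unfold ff
        rw [e7, hκ]
        nlinarith
      have h7 : Real.log (5 / 2) < 2 := by
        have := Real.log_lt_sub_one_of_pos (x := 5 / 2) (by norm_num) (by norm_num)
        linarith
      have h8 : Real.log (5 / 2) ≤ Real.log (x - 1) :=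
        Real.log_le_log (by norm_num) (by linarith)
      have h9 : b * (Real.log (x - 1) - Real.log (5 / 2)) ≤
          κ * (Real.log (x - 1) - Real.log (5 / 2)) :=
        mul_le_mul_of_nonneg_right hb1 (by linarith)
      have h10 : b * (Real.log |x ^ 2 - 3 * x + 1| - Real.log x) ≤ b * Real.log (x - 1) :=
        mul_le_mul_of_nonneg_left (by linarith) hb0.le
      nlinarith

/-- the inequality for `x > 0` -/
theorem real2 : ∃ b : ℝ, 0 < b ∧ b < 1 / 10 ∧ ∀ x : ℝ, 0 < x → x ≠ 1 → x ^ 2 - 3 * x + 1 ≠ 0 →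
    Real.log gr + ea * Real.log |x - 1| + b * Real.log |x ^ 2 - 3 * x + 1| +
      (1 / 2 - ea / 2 - b) * Real.log x < Real.posLog x := by
  obtain ⟨b, hb0, hb1, hb⟩ := real1
  refine ⟨b, hb0, hb1, ?_⟩
  have key : ∀ x : ℝ, 1 < x → x ^ 2 - 3 * x + 1 ≠ 0 →
      Real.log gr + ea * Real.log |x - 1| + b * Real.log |x ^ 2 - 3 * x + 1| +
      (1 / 2 - ea / 2 - b) * Real.log x < Real.log x := by
    intro x hx hq
    have h := hb x hx hq
    unfold ff at h
    rw [abs_of_pos (by linarith : 0 < x - 1)]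
    linarith
  intro x hx hx1 hq
  rcases lt_or_gt_of_ne hx1 with h | h
  · have hy : 1 < x⁻¹ := (one_lt_inv₀ hx).2 h
    have e1 : x⁻¹ ^ 2 - 3 * x⁻¹ + 1 = (x ^ 2 - 3 * x + 1) / x ^ 2 := by
      field_simp
      ring
    have e2 : x⁻¹ - 1 = (1 - x) / x := by
      field_simp
    have h1 := key x⁻¹ hy (by rw [e1]; exact div_ne_zero hq (by positivity))
    rw [e1, e2, abs_div, abs_div, abs_of_pos hx, abs_of_pos (by positivity : 0 < x ^ 2),
      Real.log_div (abs_pos.2 (by linarith : (1 : ℝ) - x ≠ 0)).ne' hx.ne',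
      Real.log_div (abs_pos.2 hq).ne' (by positivity), Real.log_inv, Real.log_pow,
      abs_sub_comm] at h1
    push_cast at h1
    have h2 : 0 ≤ Real.posLog x := Real.posLog_nonneg
    linarith
  · have h2 : Real.posLog x = Real.log x := Real.posLog_eq_log (by rw [abs_of_pos hx]; exact h.le)
    rw [h2]
    exact key x h hq

/-! ### Compactness -/

/-- the product -/
noncomputable def HH (b : ℝ) (z : ℂ) : ℝ :=
  gr * ‖z - 1‖ ^ ea * ‖z ^ 2 - 3 * z + 1‖ ^ b * ‖z‖ ^ (1 / 2 - ea / 2 - b) / max 1 ‖z‖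

theorem HH_cont {b : ℝ} (hb0 : 0 < b) (hb1 : b < 1 / 10) : Continuous (HH b) := by
  have h1 : 0 < 1 / 2 - ea / 2 - b := by linarith [ea_lt]
  unfold HH
  refine Continuous.div ?_ (by fun_prop) fun z => by positivity
  refine (((continuous_const.mul ?_).mul ?_).mul ?_)
  · exact (by fun_prop : Continuous fun z : ℂ => ‖z - 1‖).rpow_const fun _ => Or.inr ea_pos.le
  · exact (by fun_prop : Continuous fun z : ℂ => ‖z ^ 2 - 3 * z + 1‖).rpow_const
      fun _ => Or.inr hb0.le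
  · exact (by fun_prop : Continuous fun z : ℂ => ‖z‖).rpow_const fun _ => Or.inr h1.le

/-- the product on the positive real line -/
theorem HH_real {b : ℝ} (hb0 : 0 < b) (hb1 : b < 1 / 10)
    (hb : ∀ x : ℝ, 0 < x → x ≠ 1 → x ^ 2 - 3 * x + 1 ≠ 0 →
    Real.log gr + ea * Real.log |x - 1| + b * Real.log |x ^ 2 - 3 * x + 1| +
      (1 / 2 - ea / 2 - b) * Real.log x < Real.posLog x) {x : ℝ} (hx : 0 ≤ x) :
    HH b (x : ℂ) < 1 := by
  have h1 : 0 < 1 / 2 - ea / 2 - b := by linarith [ea_lt]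
  unfold HH
  have e1 : (x : ℂ) - 1 = ((x - 1 : ℝ) : ℂ) := by push_cast; ring
  have e2 : (x : ℂ) ^ 2 - 3 * x + 1 = ((x ^ 2 - 3 * x + 1 : ℝ) : ℂ) := by push_cast; ring
  rw [e1, e2, Complex.norm_real, Complex.norm_real, Complex.norm_real, Real.norm_eq_abs,
    Real.norm_eq_abs, Real.norm_eq_abs]
  rcases hx.eq_or_lt with h | h
  · rw [← h, abs_zero, Real.zero_rpow h1.ne']
    norm_num
  by_cases h2 : x = 1
  · rw [h2, sub_self, abs_zero, Real.zero_rpow ea_pos.ne']
    norm_num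
  by_cases h3 : x ^ 2 - 3 * x + 1 = 0
  · rw [h3, abs_zero, Real.zero_rpow hb0.ne']
    norm_num
  have h4 := hb x h h2 h3
  have p1 : 0 < |x - 1| := abs_pos.2 (sub_ne_zero.2 h2)
  have p2 : 0 < |x ^ 2 - 3 * x + 1| := abs_pos.2 h3
  rw [Real.posLog_eq_log_max_one hx] at h4
  rw [abs_of_pos h, div_lt_one (by positivity)]
  have p3 := gr_pos
  have p4 : 0 < |x - 1| ^ ea := by positivity
  have p5 : 0 < |x ^ 2 - 3 * x + 1| ^ b := by positivity
  have p6 : 0 < x ^ (1 / 2 - ea / 2 - b) := by positivity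
  rw [← Real.log_lt_log_iff (by positivity) (by positivity), Real.log_mul (by positivity) p6.ne',
    Real.log_mul (by positivity) p5.ne', Real.log_mul p3.ne' p4.ne', Real.log_rpow p1,
    Real.log_rpow p2, Real.log_rpow h]
  exact h4

/-- the product is small at infinity -/
theorem HH_far {b : ℝ} (hb0 : 0 < b) (hb1 : b < 1 / 10) :
    ∃ R : ℝ, ∀ z : ℂ, R < ‖z‖ → HH b z < 1 := by
  have h1 : 0 < 1 / 2 - ea / 2 - b := by linarith [ea_lt]
  set c := 1 / 2 - ea / 2 - b with hc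
  have h2 : Tendsto (fun r : ℝ => gr * 2 ^ ea * 5 ^ b * r ^ (-c)) atTop (𝓝 0) := by
    have := (tendsto_rpow_neg_atTop h1).const_mul (gr * 2 ^ ea * 5 ^ b)
    simpa using this
  have h3 : ∀ᶠ r : ℝ in atTop, gr * 2 ^ ea * 5 ^ b * r ^ (-c) < 1 :=
    h2.eventually (gt_mem_nhds one_pos)
  obtain ⟨R, hR⟩ := eventually_atTop.1 (h3.and (eventually_ge_atTop 1))
  refine ⟨R, fun z hz => ?_⟩
  obtain ⟨h4, h5⟩ := hR ‖z‖ hz.le
  have h6 : 0 < ‖z‖ := by linarith
  refine lt_of_le_of_lt ?_ h4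
  unfold HH
  rw [max_eq_right h5, div_le_iff₀ h6]
  have n1 : ‖z - 1‖ ≤ 2 * ‖z‖ := by
    refine (norm_sub_le _ _).trans ?_
    rw [norm_one]
    linarith
  have n2 : ‖z ^ 2 - 3 * z + 1‖ ≤ 5 * ‖z‖ ^ 2 := by
    calc ‖z ^ 2 - 3 * z + 1‖ ≤ ‖z ^ 2 - 3 * z‖ + ‖(1 : ℂ)‖ := norm_add_le _ _
      _ ≤ ‖z ^ 2‖ + ‖3 * z‖ + ‖(1 : ℂ)‖ := by gcongr; exact norm_sub_le _ _
      _ = ‖z‖ ^ 2 + 3 * ‖z‖ + 1 := by rw [norm_pow, norm_mul, norm_one]; norm_num
      _ ≤ 5 * ‖z‖ ^ 2 := by nlinarith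
  have n3 : ‖z - 1‖ ^ ea ≤ 2 ^ ea * ‖z‖ ^ ea := by
    rw [← Real.mul_rpow (by norm_num) h6.le]
    exact Real.rpow_le_rpow (norm_nonneg _) n1 ea_pos.le
  have n4 : ‖z ^ 2 - 3 * z + 1‖ ^ b ≤ 5 ^ b * ‖z‖ ^ (2 * b) := by
    have e : ‖z‖ ^ (2 * b) = (‖z‖ ^ 2) ^ b := by
      rw [Real.rpow_mul h6.le, Real.rpow_ofNat]
    rw [e, ← Real.mul_rpow (by norm_num) (by positivity)]
    exact Real.rpow_le_rpow (norm_nonneg _) n2 hb0.le
  have hg := gr_pos
  calc gr * ‖z - 1‖ ^ ea * ‖z ^ 2 - 3 * z + 1‖ ^ b * ‖z‖ ^ c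
      ≤ gr * (2 ^ ea * ‖z‖ ^ ea) * (5 ^ b * ‖z‖ ^ (2 * b)) * ‖z‖ ^ c := by gcongr
    _ = gr * 2 ^ ea * 5 ^ b * (‖z‖ ^ ea * ‖z‖ ^ (2 * b) * ‖z‖ ^ c) := by ring
    _ = gr * 2 ^ ea * 5 ^ b * (‖z‖ ^ (-c) * ‖z‖) := by
        congr 1
        rw [← Real.rpow_add h6, ← Real.rpow_add h6]
        nth_rewrite 3 [← Real.rpow_one ‖z‖]
        rw [← Real.rpow_add h6]
        congr 1
        rw [hc]
        ring
    _ = gr * 2 ^ ea * 5 ^ b * ‖z‖ ^ (-c) * ‖z‖ := by ring

/-- the inequality in a sector -/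
theorem sector {b : ℝ} (hb0 : 0 < b) (hb1 : b < 1 / 10)
    (hb : ∀ x : ℝ, 0 < x → x ≠ 1 → x ^ 2 - 3 * x + 1 ≠ 0 →
    Real.log gr + ea * Real.log |x - 1| + b * Real.log |x ^ 2 - 3 * x + 1| +
      (1 / 2 - ea / 2 - b) * Real.log x < Real.posLog x) :
    ∃ ε : ℝ, 0 < ε ∧ ε < Real.pi ∧ ∀ z : ℂ, |z.arg| ≤ ε → HH b z < 1 := by
  obtain ⟨R, hR⟩ := HH_far hb0 hb1
  have h1 : 0 < 1 / 2 - ea / 2 - b := by linarith [ea_lt]
  have hcl : IsClosed {z : ℂ | 1 ≤ HH b z} := isClosed_le continuous_const (HH_cont hb0 hb1)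
  have hK : IsCompact {z : ℂ | 1 ≤ HH b z} := by
    refine Metric.isCompact_of_isClosed_isBounded hcl ?_
    refine (Metric.isBounded_closedBall (x := (0 : ℂ)) (r := R)).subset ?_
    intro z hz
    rw [Metric.mem_closedBall, dist_zero_right]
    by_contra h
    exact absurd (hR z (not_le.1 h)) (not_lt.2 hz)
  have h0 : (0 : ℂ) ∉ {z : ℂ | 1 ≤ HH b z} := by
    intro h
    have := HH_real hb0 hb1 hb (le_refl (0 : ℝ))
    rw [Complex.ofReal_zero] at this
    exact absurd h (not_le.2 this)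
  rcases Set.eq_empty_or_nonempty {z : ℂ | 1 ≤ HH b z} with he | hne
  · refine ⟨1, one_pos, by linarith [Real.pi_gt_three], fun z _ => ?_⟩
    by_contra h
    have : z ∈ {z : ℂ | 1 ≤ HH b z} := not_lt.1 h
    rw [he] at this
    exact this
  · have hc : ContinuousOn (fun z : ℂ => z.re / ‖z‖) {z : ℂ | 1 ≤ HH b z} := by
      refine ContinuousOn.div (by fun_prop) (by fun_prop) ?_
      intro z hz h
      rw [norm_eq_zero] at h
      exact h0 (h ▸ hz)
    obtain ⟨z₀, hz₀, hm⟩ := hK.exists_isMaxOn hne hc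
    have hz₀0 : z₀ ≠ 0 := fun h => h0 (h ▸ hz₀)
    have hlt : z₀.re / ‖z₀‖ < 1 := by
      by_contra h
      have h2 := not_lt.1 h
      rw [le_div_iff₀ (norm_pos_iff.2 hz₀0), one_mul] at h2
      have h3 : z₀.re = ‖z₀‖ := le_antisymm (Complex.re_le_norm z₀) h2
      have h4 : z₀.im = 0 := by
        have h5 := Complex.sq_norm z₀
        rw [Complex.normSq_apply, ← h3] at h5
        nlinarith
      have h5 : z₀ = ((z₀.re : ℝ) : ℂ) := Complex.ext (by simp) (by simp [h4])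
      have h6 := HH_real hb0 hb1 hb (x := z₀.re) (by rw [h3]; exact norm_nonneg _)
      rw [← h5] at h6
      exact absurd hz₀ (not_le.2 h6)
    set m := z₀.re / ‖z₀‖ with hmdef
    have hm1 : -1 ≤ m := by
      rw [hmdef, le_div_iff₀ (norm_pos_iff.2 hz₀0)]
      have := Complex.abs_re_le_norm z₀
      linarith [neg_abs_le z₀.re]
    have hca : Real.cos (Real.arccos ((m + 1) / 2)) = (m + 1) / 2 :=
      Real.cos_arccos (by linarith) (by linarith)
    refine ⟨min (Real.arccos ((m + 1) / 2)) 1, ?_, ?_, ?_⟩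
    · exact lt_min (Real.arccos_pos.2 (by linarith)) one_pos
    · exact lt_of_le_of_lt (min_le_right _ _) (by linarith [Real.pi_gt_three])
    · intro z hz
      by_contra h
      have hzK : z ∈ {z : ℂ | 1 ≤ HH b z} := not_lt.1 h
      have hz0 : z ≠ 0 := fun h' => h0 (h' ▸ hzK)
      have h2 : z.re / ‖z‖ ≤ m := hm hzK
      rw [← Complex.cos_arg hz0, ← Real.cos_abs] at h2
      have h3 : Real.cos (Real.arccos ((m + 1) / 2)) ≤ Real.cos |z.arg| :=
        Real.cos_le_cos_of_nonneg_of_le_pi (abs_nonneg _) (Real.arccos_le_pi _)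
          (hz.trans (min_le_left _ _))
      rw [hca] at h3
      linarith

/-! ### Sums over the roots -/

theorem mem_rts {P : ℤ[X]} (hP : P ≠ 0) {z : ℂ} : z ∈ rts P ↔ ev P z = 0 := by
  have h : cp P ≠ 0 := by
    unfold cp
    rwa [Ne, Polynomial.map_eq_zero_iff (Int.castRingHom ℂ).injective_int]
  unfold rts ev
  rw [Multiset.mem_toFinset, Polynomial.mem_roots h, Polynomial.IsRoot.def]

/-- two monic irreducible polynomials with a common root are equal -/
theorem eq_of_root {P Q : ℤ[X]} (hP : P.Monic) (hPi : Irreducible P) (hQ : Q.Monic)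
    (hQi : Irreducible Q) {z : ℂ} (h1 : ev P z = 0) (h2 : ev Q z = 0) : P = Q := by
  have key : ∀ R : ℤ[X], R.Monic → Irreducible R → ev R z = 0 → R = minpoly ℤ z := by
    intro R hR hRi hz
    have h3 : aeval z R = 0 := by
      rw [aeval_def, ← eval_map]
      exact hz
    have hint : IsIntegral ℤ z := ⟨R, hR, by rw [← aeval_def]; exact h3⟩
    have hd : minpoly ℤ z ∣ R := minpoly.isIntegrallyClosed_dvd hint h3
    have hu : ¬ IsUnit (minpoly ℤ z) := minpoly.not_isUnit ℤ z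
    obtain ⟨S, hS⟩ := hd
    rcases hRi.isUnit_or_isUnit hS with h | h
    · exact absurd h hu
    · refine (Polynomial.eq_of_monic_of_associated (minpoly.monic hint) hR ?_).symm
      exact ⟨h.unit, by rw [IsUnit.unit_spec]; exact hS.symm⟩
  rw [key P hP hPi h1, key Q hQ hQi h2]

theorem stmt_ZER (hBAS : Stmt_BAS) (hRES : Stmt_RES) (hGOL : Stmt_GOL) : Stmt_ZER := by
  obtain ⟨b, hb0, hb1, hb⟩ := real2
  obtain ⟨ε, hε0, hε1, hε⟩ := sector hb0 hb1 hb
  refine ⟨ε, hε0, hε1, ?_⟩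
  intro P hP
  obtain ⟨hPm, hPi, hPX, hPa, hPM⟩ := hP
  obtain ⟨hd0, hprod, hcard, -, hlog⟩ := hBAS P hPm hPi
  by_cases hG : P = X ^ 2 - 3 * X + 1
  · rw [hG, hGOL.2]
  obtain ⟨⟨hGm, hGi, -, -, -⟩, -⟩ := hGOL
  have hP0 : P ≠ 0 := hPm.ne_zero
  have hc0 : 0 < 1 / 2 - ea / 2 - b := by linarith [ea_lt]
  -- the three resultants
  have r1 : ∀ a ∈ rts P, ev (X - 1) a ≠ 0 := by
    intro a ha h
    have hmon : (X - 1 : ℤ[X]).Monic := by
      have := monic_X_sub_C (1 : ℤ)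
      simpa using this
    have hirr : Irreducible (X - 1 : ℤ[X]) := by
      have := irreducible_X_sub_C (1 : ℤ)
      simpa using this
    have he := eq_of_root hPm hPi hmon hirr ((mem_rts hP0).1 ha) h
    rw [he] at hPM
    unfold MM cp at hPM
    have : (X - 1 : ℤ[X]).map (Int.castRingHom ℂ) = X - C 1 := by simp
    rw [this, Polynomial.mahlerMeasure_X_sub_C] at hPM
    norm_num at hPM
  have r2 : ∀ a ∈ rts P, ev (X ^ 2 - 3 * X + 1) a ≠ 0 := by
    intro a ha h
    exact hG (eq_of_root hPm hPi hGm hGi ((mem_rts hP0).1 ha) h)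
  have r3 : ∀ a ∈ rts P, ev X a ≠ 0 := by
    intro a ha h
    exact hPX (eq_of_root hPm hPi monic_X irreducible_X ((mem_rts hP0).1 ha) h)
  have e1 : ∀ a : ℂ, ev (X - 1) a = a - 1 := by
    intro a
    simp [ev, cp]
  have e2 : ∀ a : ℂ, ev (X ^ 2 - 3 * X + 1) a = a ^ 2 - 3 * a + 1 := by
    intro a
    simp [ev, cp]
  have e3 : ∀ a : ℂ, ev X a = a := by
    intro a
    simp [ev, cp]
  have q1 := hRES P (X - 1) hPm hPi r1
  have q2 := hRES P (X ^ 2 - 3 * X + 1) hPm hPi r2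
  have q3 := hRES P X hPm hPi r3
  have l1 := Real.log_nonneg q1
  have l2 := Real.log_nonneg q2
  have l3 := Real.log_nonneg q3
  rw [Real.log_prod (fun a ha => (norm_pos_iff.2 (r1 a ha)).ne')] at l1
  rw [Real.log_prod (fun a ha => (norm_pos_iff.2 (r2 a ha)).ne')] at l2
  rw [Real.log_prod (fun a ha => (norm_pos_iff.2 (r3 a ha)).ne')] at l3
  -- the inequality for the roots
  have key : ∀ a ∈ rts P, Real.log gr + ea * Real.log ‖ev (X - 1) a‖ +
      b * Real.log ‖ev (X ^ 2 - 3 * X + 1) a‖ + (1 / 2 - ea / 2 - b) * Real.log ‖ev X a‖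
      ≤ Real.posLog ‖a‖ := by
    intro a ha
    have h := hε a (hPa a ha)
    have n1 := norm_pos_iff.2 (r1 a ha)
    have n2 := norm_pos_iff.2 (r2 a ha)
    have n3 := norm_pos_iff.2 (r3 a ha)
    rw [e1] at n1 ⊢
    rw [e2] at n2 ⊢
    rw [e3] at n3 ⊢
    unfold HH at h
    rw [div_lt_one (by positivity)] at h
    have p3 := gr_pos
    have p4 : 0 < ‖a - 1‖ ^ ea := by positivity
    have p5 : 0 < ‖a ^ 2 - 3 * a + 1‖ ^ b := by positivity
    have p6 : 0 < ‖a‖ ^ (1 / 2 - ea / 2 - b) := by positivity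
    rw [← Real.log_lt_log_iff (by positivity) (by positivity), Real.log_mul (by positivity) p6.ne',
      Real.log_mul (by positivity) p5.ne', Real.log_mul p3.ne' p4.ne', Real.log_rpow n1,
      Real.log_rpow n2, Real.log_rpow n3, ← Real.posLog_eq_log_max_one (norm_nonneg _)] at h
    exact h.le
  have hsum := Finset.sum_le_sum key
  rw [Finset.sum_add_distrib, Finset.sum_add_distrib, Finset.sum_add_distrib, ← Finset.mul_sum,
    ← Finset.mul_sum, ← Finset.mul_sum, Finset.sum_const, nsmul_eq_mul, hcard, ← hlog] at hsum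
  have hdR : (0 : ℝ) < P.natDegree := by exact_mod_cast hd0
  unfold lv
  rw [le_div_iff₀ hdR]
  have hfin : (P.natDegree : ℝ) * Real.log gr ≤ Real.log (MM P) := by
    have a1 := mul_nonneg ea_pos.le l1
    have a2 := mul_nonneg hb0.le l2
    have a3 := mul_nonneg hc0.le l3
    linarith
  have e5 : Real.log ((1 + √5) / 2) = Real.log gr := rfl
  rw [e5]
  linarith

end Pool.Agent.Work.MP_ce2d68_st.helper56
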